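import Pool.Agent.K3h83.BT.NegMain
import Pool.Agent.K3h83.BT.Upper

/-!
# MP_74be22_co: the threshold for bounded transversals
-/

set_option autoImplicit false

namespace Pool.Agent.Results.MP_74be22_co.Threshold

open Finset

/-- The hypotheses of the problem (Q2) on a family `F` of subsets of an `n`-element set:
`|A| > c₁ √n` for every member, and `|A ∩ B| ≤ c₂` for any two distinct members. -/
def Admissible (c₁ c₂ : ℝ) (n : ℕ) (F : Finset (Finset (Fin n))) : Prop :=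
  (∀ A ∈ F, c₁ * √(n : ℝ) < (A.card : ℝ)) ∧
    ∀ A ∈ F, ∀ B ∈ F, A ≠ B → ((A ∩ B).card : ℝ) ≤ c₂

/-- `S` meets every member of `F`, and meets each member in at most `C` points. -/
def IsTransversal (C : ℝ) {n : ℕ} (F : Finset (Finset (Fin n))) (S : Finset (Fin n)) : Prop :=
  ∀ A ∈ F, 1 ≤ (A ∩ S).card ∧ ((A ∩ S).card : ℝ) ≤ C

/-- The property asked for in Q2, for the pair of constants `c₁`, `c₂`. -/
def Holds (c₁ c₂ : ℝ) : Prop :=
  ∃ C : ℕ, ∀ (n : ℕ) (F : Finset (Finset (Fin n))), Admissible c₁ c₂ n F →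
    ∃ S : Finset (Fin n), IsTransversal (C : ℝ) F S

/-- index a family by `Fin m` -/
theorem index {c₁ c₂ : ℝ} {n : ℕ} {F : Finset (Finset (Fin n))} (h : Admissible c₁ c₂ n F) :
    ∃ (m : ℕ) (A : Fin m → Finset (Fin n)), (∀ B ∈ F, ∃ k, A k = B) ∧
      (∀ k, c₁ * √(n : ℝ) < (A k).card) ∧
      (∀ k l, k ≠ l → (A k ∩ A l).card ≤ ⌊c₂⌋₊) := by
  refine ⟨F.card, fun k => (F.equivFin.symm k : Finset (Fin n)), fun B hB => ?_, fun k => ?_,
    fun k l hkl => ?_⟩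
  · exact ⟨F.equivFin ⟨B, hB⟩, by simp⟩
  · exact h.1 _ (F.equivFin.symm k).2
  · apply Nat.le_floor
    apply h.2 _ (F.equivFin.symm k).2 _ (F.equivFin.symm l).2
    intro he
    exact hkl (F.equivFin.symm.injective (Subtype.ext he))

/-- For all `c₁, c₂ > 0`:
* if `c₁ > √⌊c₂⌋` the statement of Q2 holds for `c₁, c₂`;
* if `c₁ < √⌊c₂⌋` it fails, and even `δ log n`-bounded transversals need not exist, for
  arbitrarily large `n`;
* in all cases there is an `O(log n)`-bounded transversal. -/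
theorem result (c₁ c₂ : ℝ) (h₁ : 0 < c₁) (h₂ : 0 < c₂) :
    (√(⌊c₂⌋₊ : ℝ) < c₁ → Holds c₁ c₂) ∧
    (c₁ < √(⌊c₂⌋₊ : ℝ) → ¬ Holds c₁ c₂ ∧
      ∃ δ : ℝ, 0 < δ ∧ ∀ n₀ : ℕ, ∃ (n : ℕ) (F : Finset (Finset (Fin n))), n₀ ≤ n ∧
        Admissible c₁ c₂ n F ∧ ∀ S : Finset (Fin n), ¬ IsTransversal (δ * Real.log n) F S) ∧
    (∃ C : ℝ, ∀ (n : ℕ) (F : Finset (Finset (Fin n))), Admissible c₁ c₂ n F →
      ∃ S : Finset (Fin n), IsTransversal (C * (1 + Real.log n)) F S) := by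
  refine ⟨fun h => ?_, fun h => ?_, ?_⟩
  · have hlt : (⌊c₂⌋₊ : ℝ) < c₁ ^ 2 := (Real.sqrt_lt' h₁).1 h
    obtain ⟨C, hC⟩ := K3h83.BT.pos ⌊c₂⌋₊ c₁ h₁ hlt
    refine ⟨C, fun n F hF => ?_⟩
    obtain ⟨m, A, hA, hs, hp⟩ := index hF
    obtain ⟨S, hS⟩ := hC n m A hs hp
    refine ⟨S, fun B hB => ?_⟩
    obtain ⟨k, rfl⟩ := hA B hB
    exact ⟨(hS k).1, by exact_mod_cast (hS k).2⟩
  · have hlt : c₁ ^ 2 < (⌊c₂⌋₊ : ℝ) := by
      have := (Real.lt_sqrt h₁.le).1 h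
      exact this
    have hl : 1 ≤ ⌊c₂⌋₊ := by
      rcases Nat.eq_zero_or_pos ⌊c₂⌋₊ with h0 | h0
      · rw [h0] at hlt
        have : 0 < c₁ ^ 2 := by positivity
        simp only [Nat.cast_zero] at hlt
        linarith
      · exact h0
    obtain ⟨δ, hδ, hneg⟩ := K3h83.BT.neg ⌊c₂⌋₊ hl c₁ hlt
    have key : ∀ n₀ : ℕ, ∃ (n : ℕ) (F : Finset (Finset (Fin n))), n₀ ≤ n ∧
        Admissible c₁ c₂ n F ∧ ∀ S : Finset (Fin n), ¬ IsTransversal (δ * Real.log n) F S := by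
      intro n₀
      obtain ⟨n, m, A, hn, hs, hp, hS⟩ := hneg n₀
      refine ⟨n, univ.image A, hn, ⟨fun B hB => ?_, fun B hB B' hB' hne => ?_⟩, fun S hST => ?_⟩
      · obtain ⟨k, -, rfl⟩ := mem_image.1 hB
        exact hs k
      · obtain ⟨k, -, rfl⟩ := mem_image.1 hB
        obtain ⟨l, -, rfl⟩ := mem_image.1 hB'
        have hkl : k ≠ l := fun he => hne (by rw [he])
        have h3 : (((A k ∩ A l).card : ℕ) : ℝ) ≤ (⌊c₂⌋₊ : ℝ) := by exact_mod_cast hp k l hkl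
        exact h3.trans (Nat.floor_le h₂.le)
      · obtain ⟨k, hk⟩ := hS S fun k => (hST (A k) (mem_image_of_mem A (mem_univ k))).1
        have := (hST (A k) (mem_image_of_mem A (mem_univ k))).2
        linarith
    refine ⟨?_, δ, hδ, key⟩
    rintro ⟨C, hC⟩
    -- choose `n` with `δ log n ≥ C`
    obtain ⟨n₀, hn₀⟩ := exists_nat_ge (Real.exp (C / δ))
    obtain ⟨n, F, hn, hF, hS⟩ := key n₀
    obtain ⟨S, hST⟩ := hC n F hF
    refine hS S fun B hB => ⟨(hST B hB).1, (hST B hB).2.trans ?_⟩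
    have hpos : (0 : ℝ) < n := (Real.exp_pos _).trans_le (hn₀.trans (by exact_mod_cast hn))
    have h4 : C / δ ≤ Real.log n :=
      (Real.le_log_iff_exp_le hpos).2 (hn₀.trans (by exact_mod_cast hn))
    rw [div_le_iff₀ hδ] at h4
    linarith
  · obtain ⟨C, hC⟩ := K3h83.BT.upper ⌊c₂⌋₊ c₁ h₁
    refine ⟨C, fun n F hF => ?_⟩
    obtain ⟨m, A, hA, hs, hp⟩ := index hF
    obtain ⟨S, hS⟩ := hC n m A hs hp
    refine ⟨S, fun B hB => ?_⟩
    obtain ⟨k, rfl⟩ := hA B hB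
    exact hS k

end Pool.Agent.Results.MP_74be22_co.Threshold
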